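import Pool.Agent.Q21.AW.Seq

set_option autoImplicit false

/-! Windows of digits: almost all real numbers, and Hausdorff dimension. -/

namespace Pool.Agent.Q21.AW

open MeasureTheory Filter Set ENNReal NNReal Topology Metric

theorem ae_windows (g : ℕ) (hg : 2 ≤ g) (θ κ : ℝ) (hθ : 0 ≤ θ) (hθ1 : θ < 1) (hκ : κ < 1 - θ)
    (bad : ℕ → ℕ → Prop) (hF : Few θ bad) :
    ∀ᵐ α : ℝ, ∀ᶠ k : ℕ in atTop, ∀ j : ℕ, (j : ℝ) ≤ (g : ℝ) ^ (κ * k) →
      ¬ (window g j k α = 0 ∨ bad (g ^ k) (window g j k α)) := by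
  have hg0 : (0 : ℝ) < g := by exact_mod_cast (show 0 < g by omega)
  have hg1 : (1 : ℝ) < g := by exact_mod_cast (show 1 < g by omega)
  have h := windows_null g hg θ 1 hθ one_pos le_rfl bad hF (fun k => ⌊(g : ℝ) ^ (κ * k)⌋₊)
    ((g : ℝ) ^ (max κ 0 + θ - 1)) 2 (by positivity)
    (Real.rpow_lt_one_of_one_lt_of_neg hg1 (by
      rcases max_cases κ 0 with ⟨h1, _⟩ | ⟨h1, _⟩ <;> rw [h1] <;> linarith)) ?_
  · rw [hausdorffMeasure_real] at h
    rw [ae_iff]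
    refine measure_mono_null ?_ h
    intro α hα hcon
    refine hα ?_
    filter_upwards [hcon] with k hk j hj
    exact hk j ((Nat.le_floor_iff (by positivity)).2 hj)
  · intro k
    have h1 : ((⌊(g : ℝ) ^ (κ * k)⌋₊ : ℕ) : ℝ) ≤ (g : ℝ) ^ (κ * k) := Nat.floor_le (by positivity)
    have h2 : (g : ℝ) ^ (κ * k) ≤ (g : ℝ) ^ (max κ 0 * k) :=
      Real.rpow_le_rpow_of_exponent_le hg1.le (mul_le_mul_of_nonneg_right (le_max_left _ _) (Nat.cast_nonneg _))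
    have h3 : (1 : ℝ) ≤ (g : ℝ) ^ (max κ 0 * k) :=
      Real.one_le_rpow hg1.le (mul_nonneg (le_max_right _ _) (Nat.cast_nonneg _))
    have e1 : (1 - 1 : ℝ) * ((⌊(g : ℝ) ^ (κ * k)⌋₊ : ℕ) : ℝ) = 0 := by ring
    rw [e1, Real.rpow_zero, mul_one]
    have e2 : ((g : ℝ) ^ (max κ 0 + θ - 1)) ^ k = (g : ℝ) ^ (max κ 0 * k) * (g : ℝ) ^ ((θ - 1) * k) := by
      rw [← Real.rpow_natCast, ← Real.rpow_mul hg0.le, ← Real.rpow_add hg0]
      congr 1
      ring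
    rw [e2, ← mul_assoc]
    exact mul_le_mul_of_nonneg_right (by linarith) (by positivity)

theorem dim_windows (g : ℕ) (hg : 2 ≤ g) (θ η s : ℝ) (hθ : 0 ≤ θ) (hη : 0 ≤ η)
    (hs : (θ + η) / (1 + η) < s) (hs1 : s ≤ 1) (bad : ℕ → ℕ → Prop) (hF : Few θ bad) :
    μH[s] {α : ℝ | ¬ ∀ᶠ k : ℕ in atTop, ∀ j : ℕ, (j : ℝ) ≤ η * k →
      ¬ (window g j k α = 0 ∨ bad (g ^ k) (window g j k α))} = 0 := by
  have hg0 : (0 : ℝ) < g := by exact_mod_cast (show 0 < g by omega)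
  have hg1 : (1 : ℝ) < g := by exact_mod_cast (show 1 < g by omega)
  have hs0 : 0 < s := lt_of_le_of_lt (by positivity) hs
  rw [div_lt_iff₀ (by positivity)] at hs
  set e : ℝ := (1 - s) * η + (θ - s) with he
  have he0 : e < 0 := by rw [he]; nlinarith
  set r : ℝ := (g : ℝ) ^ (-e / 2) with hr
  have hr1 : 1 < r := Real.one_lt_rpow hg1 (by linarith)
  have h := windows_null g hg θ s hθ hs0 hs1 bad hF (fun k => ⌊η * k⌋₊)
    ((g : ℝ) ^ (e / 2)) (η / (r - 1) + 1) (by positivity)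
    (Real.rpow_lt_one_of_one_lt_of_neg hg1 (by linarith)) ?_
  · refine measure_mono_null ?_ h
    intro α hα hcon
    refine hα ?_
    filter_upwards [hcon] with k hk j hj
    exact hk j ((Nat.le_floor_iff (by positivity)).2 hj)
  · intro k
    have h1 : ((⌊η * (k : ℝ)⌋₊ : ℕ) : ℝ) ≤ η * k := Nat.floor_le (by positivity)
    have h2 : (g : ℝ) ^ ((1 - s) * ((⌊η * (k : ℝ)⌋₊ : ℕ) : ℝ)) ≤ (g : ℝ) ^ ((1 - s) * (η * k)) :=
      Real.rpow_le_rpow_of_exponent_le hg1.le (mul_le_mul_of_nonneg_left h1 (by linarith))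
    have h3 : (k : ℝ) ≤ r ^ k / (r - 1) := by
      rw [le_div_iff₀ (by linarith)]
      have h4 := one_add_mul_le_pow (a := r - 1) (by linarith) k
      rw [add_sub_cancel] at h4
      linarith
    have h5 : (1 : ℝ) ≤ r ^ k := one_le_pow₀ hr1.le
    have h6 : ((⌊η * (k : ℝ)⌋₊ : ℕ) : ℝ) + 1 ≤ (η / (r - 1) + 1) * r ^ k := by
      have h7 := mul_le_mul_of_nonneg_left h3 hη
      have e7 : η * (r ^ k / (r - 1)) = η / (r - 1) * r ^ k := by ring
      rw [e7] at h7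
      nlinarith
    have e2 : r ^ k * ((g : ℝ) ^ ((1 - s) * (η * k)) * (g : ℝ) ^ ((θ - s) * k)) = ((g : ℝ) ^ (e / 2)) ^ k := by
      rw [hr, ← Real.rpow_natCast, ← Real.rpow_mul hg0.le, ← Real.rpow_natCast ((g : ℝ) ^ (e / 2)), ← Real.rpow_mul hg0.le,
        ← Real.rpow_add hg0, ← Real.rpow_add hg0]
      congr 1
      rw [he]
      ring
    have h8 : 0 < η / (r - 1) + 1 := by
      have : 0 ≤ η / (r - 1) := div_nonneg hη (by linarith)
      linarith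
    rw [← e2]
    calc (((⌊η * (k : ℝ)⌋₊ : ℕ) : ℝ) + 1) * (g : ℝ) ^ ((1 - s) * ((⌊η * (k : ℝ)⌋₊ : ℕ) : ℝ)) * (g : ℝ) ^ ((θ - s) * k)
        ≤ ((η / (r - 1) + 1) * r ^ k) * (g : ℝ) ^ ((1 - s) * (η * k)) * (g : ℝ) ^ ((θ - s) * k) := by
          refine mul_le_mul_of_nonneg_right ?_ (by positivity)
          exact mul_le_mul h6 h2 (by positivity) (by positivity)
      _ = (η / (r - 1) + 1) * (r ^ k * ((g : ℝ) ^ ((1 - s) * (η * k)) * (g : ℝ) ^ ((θ - s) * k))) := by ring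

theorem dim_le_of_null (v : ℝ) (hv0 : 0 ≤ v) (hv : v < 1) (E : Set ℝ)
    (h : ∀ s : ℝ, v < s → s ≤ 1 → μH[s] E = 0) : dimH E ≤ ENNReal.ofReal v := by
  refine ENNReal.le_of_forall_pos_le_add fun ε hε _ => ?_
  set s : ℝ := min (v + ε) 1 with hs
  have hε' : (0 : ℝ) < ε := by exact_mod_cast hε
  have hvs : v < s := lt_min (by linarith) hv
  have hs0 : 0 ≤ s := by linarith
  have h1 := h s hvs (min_le_right _ _)
  have h2 : dimH E ≤ (Real.toNNReal s : ℝ≥0∞) := by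
    refine dimH_le_of_hausdorffMeasure_ne_top ?_
    rw [Real.coe_toNNReal s hs0, h1]
    exact ENNReal.zero_ne_top
  refine h2.trans ?_
  have h3 : ENNReal.ofReal s ≤ ENNReal.ofReal (v + ε) := ENNReal.ofReal_le_ofReal (min_le_left _ _)
  refine h3.trans ?_
  rw [ENNReal.ofReal_add hv0 hε'.le, ENNReal.ofReal_coe_nnreal]

end Pool.Agent.Q21.AW
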