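import Pool.Agent.Q21.AW.Win
import Pool.Agent.H771R4.SE.AllX2

set_option autoImplicit false

/-! Integer parts `⌊α l k⌋`, and the exceptional sets in Artin's density formula. -/

namespace Pool.Agent.Q21.AW

open MeasureTheory Filter Set ENNReal Topology Metric

theorem seq_null (θ s : ℝ) (hθs : θ < s) (hs : 0 < s) (bad : ℝ → ℕ → Prop)
    (hF : ∀ T : ℕ, ∃ L₀ : ℝ, ∀ L : ℝ, L₀ ≤ L →
      (((open Classical in (Finset.range (⌊(T : ℝ) * L⌋₊ + 1)).filter (bad L)).card : ℕ) : ℝ) ≤ L ^ θ)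
    (l : ℕ → ℝ) (hl : ∀ k, 0 < l k) (hsum : Summable (fun k => l k ^ (θ - s))) :
    μH[s] {α : ℝ | 0 < α ∧ ¬ ∀ᶠ k in atTop, ¬ bad (l k) ⌊α * l k⌋₊} = 0 := by
  classical
  have hlarge : ∀ M : ℝ, ∀ᶠ k in atTop, M ≤ l k := by
    intro M
    have hM : 0 < max M 1 := lt_max_of_lt_right one_pos
    have h1 := hsum.tendsto_atTop_zero.eventually_lt_const (Real.rpow_pos_of_pos hM (θ - s))
    filter_upwards [h1] with k hk
    by_contra hcon
    push Not at hcon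
    have h2 := (Real.rpow_le_rpow_iff_of_neg hM (hl k) (show θ - s < 0 by linarith)).2
      (hcon.le.trans (le_max_left M 1))
    linarith
  have key : ∀ T : ℕ, μH[s] {α : ℝ | {k : ℕ | α ∈ {α : ℝ | 0 < α ∧ α ≤ T ∧ bad (l k) ⌊α * l k⌋₊}}.Infinite} = 0 := by
    intro T
    obtain ⟨L₀, hL₀⟩ := hF T
    refine hc2 hs (fun k : ℕ => 1 / l k) (fun k => by have := hl k; positivity)
      (fun k => ((Finset.range (⌊(T : ℝ) * l k⌋₊ + 1)).filter (bad (l k))).image (fun n : ℕ => (n : ℤ))) _ ?_ ?_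
    · rintro k α ⟨h1, h2, h3⟩
      have hk := hl k
      have e : α / (1 / l k) = α * l k := by rw [div_div_eq_mul_div, div_one]
      show ⌊α / (1 / l k)⌋ ∈ _
      rw [e, Finset.mem_image]
      refine ⟨⌊α * l k⌋₊, ?_, ?_⟩
      · rw [Finset.mem_filter, Finset.mem_range, Nat.lt_succ_iff]
        exact ⟨Nat.floor_le_floor (mul_le_mul_of_nonneg_right h2 hk.le), h3⟩
      · exact Int.natCast_floor_eq_floor (by positivity)
    · have h1 : ∀ k : ℕ, (((((Finset.range (⌊(T : ℝ) * l k⌋₊ + 1)).filter (bad (l k))).image (fun n : ℕ => (n : ℤ))).card : ℕ) : ℝ≥0∞) *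
          ENNReal.ofReal (1 / l k) ^ s ≤
          ENNReal.ofReal ((((Finset.range (⌊(T : ℝ) * l k⌋₊ + 1)).filter (bad (l k))).card : ℝ) * (1 / l k) ^ s) := by
        intro k
        have hk := hl k
        rw [ENNReal.ofReal_rpow_of_pos (by positivity), ← ENNReal.ofReal_natCast, ← ENNReal.ofReal_mul (Nat.cast_nonneg _)]
        refine ENNReal.ofReal_le_ofReal ?_
        refine mul_le_mul_of_nonneg_right ?_ (by positivity)
        exact_mod_cast Finset.card_image_le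
      refine ne_top_of_le_ne_top ?_ (ENNReal.tsum_le_tsum h1)
      have h2 : Summable (fun k : ℕ => (((Finset.range (⌊(T : ℝ) * l k⌋₊ + 1)).filter (bad (l k))).card : ℝ) * (1 / l k) ^ s) := by
        refine Summable.of_norm_bounded_eventually_nat hsum ?_
        filter_upwards [hlarge L₀] with k hk
        have hk0 := hl k
        rw [Real.norm_eq_abs, abs_of_nonneg (by positivity)]
        have h3 := hL₀ (l k) hk
        refine (mul_le_mul_of_nonneg_right h3 (by positivity)).trans (le_of_eq ?_)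
        rw [one_div, Real.inv_rpow hk0.le, ← Real.rpow_neg hk0.le, ← Real.rpow_add hk0]
        congr 1
      exact h2.tsum_ofReal_ne_top
  refine measure_mono_null ?_ (measure_iUnion_null key)
  rintro α ⟨h1, h2⟩
  obtain ⟨T, hT⟩ := exists_nat_ge α
  refine mem_iUnion.2 ⟨T, ?_⟩
  rw [Filter.not_eventually] at h2
  have h3 := Nat.frequently_atTop_iff_infinite.1 h2
  refine h3.mono fun k hk => ?_
  exact ⟨h1, hT, not_not.1 hk⟩

open Pool.Agent.H771R4.SE in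
/-- the density formula of the datum `d` at all `x` between `N ^ C` and `exp ((log N) ^ (1 + c))` -/
def DForm (d : Dat) (C c ε N : ℝ) (m : ℕ) : Prop :=
  ∀ x : ℕ, N ^ C ≤ x → (x : ℝ) ≤ Real.exp ((Real.log N) ^ (1 + c)) →
    |(cntE d m x : ℝ) - d.A * (Nat.primeCounting x : ℝ)| ≤ ε * (Nat.primeCounting x : ℝ)

lemma params (θ C : ℝ) (hθ : 1 / 2 < θ) (hC : 1 < C) (hCθ : θ * (1 - θ) < C * (2 * θ - 1)) :
    ∃ θ₀ C₀ : ℝ, 1 / 2 < θ₀ ∧ θ₀ < θ ∧ 1 < C₀ ∧ C₀ < C ∧ θ₀ * (1 - θ₀) < C₀ * (2 * θ₀ - 1) := by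
  have h2θ : 0 < 2 * θ - 1 := by linarith
  obtain ⟨C0, hC01, hC0C, hC0θ⟩ : ∃ C0 : ℝ, 1 < C0 ∧ C0 < C ∧ θ * (1 - θ) < C0 * (2 * θ - 1) := by
    have h1 : θ * (1 - θ) / (2 * θ - 1) < C := by
      rw [div_lt_iff₀ h2θ]
      exact hCθ
    obtain ⟨C0, h2, h3⟩ := exists_between (max_lt hC h1)
    refine ⟨C0, lt_of_le_of_lt (le_max_left _ _) h2, h3, ?_⟩
    have h4 := lt_of_le_of_lt (le_max_right _ _) h2
    rwa [div_lt_iff₀ h2θ] at h4
  have h5 : ∀ᶠ t in 𝓝 θ, t * (1 - t) < C0 * (2 * t - 1) := by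
    have hc1 : Continuous (fun t : ℝ => C0 * (2 * t - 1) - t * (1 - t)) := by fun_prop
    have h6 := hc1.tendsto θ |>.eventually_const_lt (show (0 : ℝ) < C0 * (2 * θ - 1) - θ * (1 - θ) by linarith)
    filter_upwards [h6] with t ht
    linarith
  have h7 : ∀ᶠ t in 𝓝[<] θ, t * (1 - t) < C0 * (2 * t - 1) ∧ 1 / 2 < t ∧ t < θ := by
    filter_upwards [mem_nhdsWithin_of_mem_nhds h5, mem_nhdsWithin_of_mem_nhds (lt_mem_nhds hθ), self_mem_nhdsWithin] with t h8 h9 h10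
    exact ⟨h8, h9, h10⟩
  obtain ⟨t, h8, h9, h10⟩ := h7.exists
  exact ⟨t, C0, h9, h10, hC01, hC0C, h8⟩

open Pool.Agent.H771R4.SE in
/-- few exceptions at real scales, for finitely many data at once -/
theorem few_real (θ C : ℝ) (hθ : 1 / 2 < θ) (hθ1 : θ < 1) (hC : 1 < C)
    (hCθ : θ * (1 - θ) < C * (2 * θ - 1)) : ∃ c : ℝ, 0 < c ∧ ∀ (S : Finset ℕ) (d : ℕ → Dat) (ε : ℝ), 0 < ε →
    ∀ T : ℕ, ∃ L₀ : ℝ, 1 ≤ L₀ ∧ ∀ L : ℝ, L₀ ≤ L →
      (((open Classical in (Finset.range (⌊(T : ℝ) * L⌋₊ + 1)).filter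
        (fun m => m = 0 ∨ ¬ ∀ i ∈ S, DForm (d i) C c ε L m)).card : ℕ) : ℝ) ≤ L ^ θ := by
  classical
  obtain ⟨θ₀, C₀, h1, h2, h3, h4, h5⟩ := params θ C hθ hC hCθ
  obtain ⟨c, hc, h⟩ := allX2 θ₀ C₀ h1 (by linarith) h3 h5
  refine ⟨c, hc, fun S d ε hε T => ?_⟩
  have hN : ∀ i : ℕ, ∃ N₀ : ℕ, ∀ N : ℕ, N₀ ≤ N → ((badY (d i) ε C₀ c N).card : ℝ) ≤ (N : ℝ) ^ θ₀ :=
    fun i => h (d i) ε hε
  choose N₀ hN₀ using hN
  -- the large scales
  have e1 : ∀ᶠ L : ℝ in atTop, (2 * (T + 1 : ℝ)) ^ C₀ ≤ L ^ (C - C₀) :=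
    (tendsto_rpow_atTop (show 0 < C - C₀ by linarith)).eventually_ge_atTop _
  have e2 : ∀ᶠ L : ℝ in atTop, 1 + S.card * (2 * (T + 1 : ℝ)) ^ θ₀ ≤ L ^ (θ - θ₀) :=
    (tendsto_rpow_atTop (show 0 < θ - θ₀ by linarith)).eventually_ge_atTop _
  obtain ⟨L₁, hL₁⟩ := eventually_atTop.1 ((e1.and e2).and (eventually_ge_atTop (max 1 (∑ i ∈ S, (N₀ i : ℝ)))))
  refine ⟨max L₁ 1, le_max_right _ _, fun L hL => ?_⟩
  obtain ⟨⟨h6, h7⟩, h8⟩ := hL₁ L ((le_max_left _ _).trans hL)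
  have hL1 : 1 ≤ L := (le_max_right _ _).trans hL
  have hL0 : 0 < L := by linarith
  set N : ℕ := ⌈(T + 1 : ℝ) * L⌉₊ with hNdef
  have hT0 : (0 : ℝ) ≤ T := Nat.cast_nonneg _
  have hNle : (N : ℝ) ≤ 2 * (T + 1) * L := by
    have := Nat.ceil_lt_add_one (show 0 ≤ (T + 1 : ℝ) * L by positivity)
    have h9 : (1 : ℝ) ≤ (T + 1) * L := by nlinarith
    rw [← hNdef] at this
    linarith
  have hNge : (T + 1 : ℝ) * L ≤ N := Nat.le_ceil _
  have hLN : L ≤ N := by nlinarith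
  have hN1 : (1 : ℝ) ≤ N := hL1.trans hLN
  have hNN : ∀ i ∈ S, N₀ i ≤ N := by
    intro i hi
    have h10 : (N₀ i : ℝ) ≤ ∑ i ∈ S, (N₀ i : ℝ) :=
      Finset.single_le_sum (f := fun i => (N₀ i : ℝ)) (fun j _ => Nat.cast_nonneg _) hi
    have h11 : (N₀ i : ℝ) ≤ N := h10.trans (((le_max_right _ _).trans h8).trans hLN)
    exact_mod_cast h11
  have hsub : (Finset.range (⌊(T : ℝ) * L⌋₊ + 1)).filter
      (fun m => m = 0 ∨ ¬ ∀ i ∈ S, DForm (d i) C c ε L m) ⊆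
      insert 0 (S.biUnion (fun i => badY (d i) ε C₀ c N)) := by
    intro m hm
    rw [Finset.mem_filter, Finset.mem_range, Nat.lt_succ_iff] at hm
    obtain ⟨h9, h10⟩ := hm
    rw [Finset.mem_insert, Finset.mem_biUnion]
    rcases Nat.eq_zero_or_pos m with h11 | h11
    · exact Or.inl h11
    right
    rcases h10 with h10 | h10
    · omega
    push Not at h10
    obtain ⟨i, hi, h12⟩ := h10
    refine ⟨i, hi, ?_⟩
    unfold DForm at h12
    push Not at h12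
    obtain ⟨x, hx1, hx2, hx3⟩ := h12
    unfold badY
    rw [Finset.mem_filter, Finset.mem_Icc]
    refine ⟨⟨h11, ?_⟩, x, ?_, ?_, hx3⟩
    · have h13 : (m : ℝ) ≤ (T : ℝ) * L := (Nat.le_floor_iff (by positivity)).1 h9
      have h14 : (m : ℝ) ≤ N := by nlinarith
      exact_mod_cast h14
    · refine le_trans ?_ hx1
      calc (N : ℝ) ^ C₀ ≤ (2 * (T + 1) * L) ^ C₀ := Real.rpow_le_rpow (by positivity) hNle (by linarith)
        _ = (2 * (T + 1 : ℝ)) ^ C₀ * L ^ C₀ := Real.mul_rpow (by positivity) hL0.le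
        _ ≤ L ^ (C - C₀) * L ^ C₀ := mul_le_mul_of_nonneg_right h6 (by positivity)
        _ = L ^ C := by rw [← Real.rpow_add hL0]; congr 1; ring
    · refine hx2.trans (Real.exp_le_exp.2 ?_)
      exact Real.rpow_le_rpow (Real.log_nonneg hL1) (Real.log_le_log hL0 hLN) (by linarith)
  have hcard : (((Finset.range (⌊(T : ℝ) * L⌋₊ + 1)).filter
      (fun m => m = 0 ∨ ¬ ∀ i ∈ S, DForm (d i) C c ε L m)).card : ℝ) ≤ 1 + S.card * (N : ℝ) ^ θ₀ := by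
    have h9 := (Finset.card_le_card hsub).trans (Finset.card_insert_le _ _)
    have h10 : ((S.biUnion (fun i => badY (d i) ε C₀ c N)).card : ℝ) ≤ S.card * (N : ℝ) ^ θ₀ := by
      have h11 : (S.biUnion (fun i => badY (d i) ε C₀ c N)).card ≤ ∑ i ∈ S, (badY (d i) ε C₀ c N).card :=
        Finset.card_biUnion_le
      have h12 : ((∑ i ∈ S, (badY (d i) ε C₀ c N).card : ℕ) : ℝ) ≤ ∑ _i ∈ S, (N : ℝ) ^ θ₀ := by
        push_cast
        exact Finset.sum_le_sum fun i hi => hN₀ i N (hNN i hi)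
      rw [Finset.sum_const, nsmul_eq_mul] at h12
      exact (by exact_mod_cast h11 : ((S.biUnion (fun i => badY (d i) ε C₀ c N)).card : ℝ) ≤ _).trans h12
    have h13 : (((Finset.range (⌊(T : ℝ) * L⌋₊ + 1)).filter
      (fun m => m = 0 ∨ ¬ ∀ i ∈ S, DForm (d i) C c ε L m)).card : ℝ) ≤
        ((S.biUnion (fun i => badY (d i) ε C₀ c N)).card : ℝ) + 1 := by exact_mod_cast h9
    linarith
  refine hcard.trans ?_
  have hLθ : 1 ≤ L ^ θ₀ := Real.one_le_rpow hL1 (by linarith)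
  calc 1 + S.card * (N : ℝ) ^ θ₀ ≤ 1 + S.card * ((2 * (T + 1) * L) ^ θ₀) := by
        have : (N : ℝ) ^ θ₀ ≤ (2 * (T + 1) * L) ^ θ₀ := Real.rpow_le_rpow (by positivity) hNle (by linarith)
        have h0 : (0 : ℝ) ≤ S.card := Nat.cast_nonneg _
        nlinarith
    _ = 1 + S.card * ((2 * (T + 1 : ℝ)) ^ θ₀ * L ^ θ₀) := by rw [Real.mul_rpow (by positivity) hL0.le]
    _ ≤ (1 + S.card * (2 * (T + 1 : ℝ)) ^ θ₀) * L ^ θ₀ := by nlinarith
    _ ≤ L ^ (θ - θ₀) * L ^ θ₀ := mul_le_mul_of_nonneg_right h7 (by positivity)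
    _ = L ^ θ := by rw [← Real.rpow_add hL0]; congr 1; ring

end Pool.Agent.Q21.AW
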